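import Pool.Agent.Q90.VanDantzig

/-!
# The residual order of a t.d.l.c.s.c. group with well-defined residual rank is a partial order
-/

set_option autoImplicit false

open scoped Topology

namespace Pool.Agent.Results.MP_4e651d_al.NoSuchGroup

universe u

section defs

variable (G : Type u) [Group G] [TopologicalSpace G]

/-- The set `𝒦(G)` of closed, compactly generated subgroups. -/
def CG : Set (Subgroup G) :=
  {K | IsClosed (K : Set G) ∧ ∃ S : Set G, IsCompact S ∧ Subgroup.closure S = K}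

variable {G}

/-- The discrete residual `Res_G(K)`: the intersection of all open subgroups `O ≤ G` with
`kO = Ok` for all `k ∈ K`. -/
def Res (K : Subgroup G) : Subgroup G :=
  sInf {O | IsOpen (O : Set G) ∧
    ∀ k ∈ K, (fun x => k * x) '' (O : Set G) = (fun x => x * k) '' (O : Set G)}

/-- The residual order: `K₁ ≼ K₂` iff `K₁ ≤ Res_G(K₂)` or `K₁ = K₂`. -/
def ResLE (K₁ K₂ : Subgroup G) : Prop := K₁ ≤ Res K₂ ∨ K₁ = K₂

/-- `K₁ ≺ K₂` iff `K₁ ≼ K₂` and `K₁ ≠ K₂`. -/
def ResLT (K₁ K₂ : Subgroup G) : Prop := ResLE K₁ K₂ ∧ K₁ ≠ K₂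

/-- The levels `𝒦_α(G)` of the residual hierarchy. -/
def level (α : Ordinal.{0}) : Set (Subgroup G) :=
  {K | K ∈ CG G ∧
    ((α = 0 ∧ K = ⊥) ∨ (α = 1 ∧ Res K = ⊥) ∨
      (1 < α ∧ ∀ L ∈ CG G, ResLT L K → ∃ β : Ordinal.{0}, ∃ _ : β < α, L ∈ level β))}
termination_by α

variable (G)

/-- The residual rank of `G` is well-defined: every member of `𝒦(G)` lies in `𝒦_α(G)` for some
ordinal `α < ω₁`. -/
def RankWellDefined : Prop := ∀ K ∈ CG G, ∃ α : Ordinal.{0}, α < Ordinal.omega 1 ∧ K ∈ level α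

end defs

section proofs

variable {G : Type u} [Group G] [TopologicalSpace G]

theorem res_mono_of_le_res {K L : Subgroup G} (h : K ≤ Res L) : Res K ≤ Res L := by
  apply le_sInf
  rintro O ⟨hO, hL⟩
  have hKO : K ≤ O := h.trans (sInf_le ⟨hO, hL⟩)
  apply sInf_le
  refine ⟨hO, fun k hk => ?_⟩
  have hkO := hKO hk
  ext x
  constructor
  · rintro ⟨y, hy, rfl⟩
    exact ⟨k * y * k⁻¹, O.mul_mem (O.mul_mem hkO hy) (O.inv_mem hkO), by simp⟩
  · rintro ⟨y, hy, rfl⟩
    exact ⟨k⁻¹ * (y * k), O.mul_mem (O.inv_mem hkO) (O.mul_mem hy hkO), by simp⟩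

theorem resLE_trans {K L M : Subgroup G} (h1 : ResLE K L) (h2 : ResLE L M) : ResLE K M := by
  rcases h1 with h1 | rfl
  · rcases h2 with h2 | rfl
    · exact Or.inl (h1.trans (res_mono_of_le_res h2))
    · exact Or.inl h1
  · exact h2

variable [IsTopologicalGroup G] [LocallyCompactSpace G] [TotallyDisconnectedSpace G] [T2Space G]

theorem res_bot : Res (⊥ : Subgroup G) = ⊥ := by
  rw [eq_bot_iff]
  intro x hx
  by_contra hne
  have hU : ({x}ᶜ : Set G) ∈ 𝓝 (1 : G) := by
    apply isOpen_compl_singleton.mem_nhds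
    intro h
    apply hne
    rw [Subgroup.mem_bot]
    exact h.symm
  obtain ⟨H, hHo, -, hHU⟩ := Q90.exists_compact_open_subgroup _ hU
  have hmem : x ∈ H := by
    have : Res (⊥ : Subgroup G) ≤ H := by
      apply sInf_le
      refine ⟨hHo, fun k hk => ?_⟩
      rw [Subgroup.mem_bot] at hk
      subst hk
      simp
    exact this hx
  exact hHU hmem rfl

/-- The key step: no pair `K ≠ L` with `K ≼ L ≼ K` has a member in the hierarchy. -/
theorem no_pair (α : Ordinal.{0}) : ∀ K L : Subgroup G, K ∈ CG G → L ∈ CG G → K ≤ Res L →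
    L ≤ Res K → K ≠ L → K ∉ level α := by
  induction α using WellFoundedLT.induction with
  | ind α ih =>
    intro K L hK hL h1 h2 hne hα
    rw [level] at hα
    obtain ⟨-, hα | hα | hα⟩ := hα
    · have hK0 := hα.2
      subst hK0
      rw [res_bot, le_bot_iff] at h2
      exact hne h2.symm
    · rw [hα.2, le_bot_iff] at h2
      rw [h2, res_bot, le_bot_iff] at h1
      exact hne (h1.trans h2.symm)
    · obtain ⟨β, hβ, hLβ⟩ := hα.2 L hL ⟨Or.inl h2, hne.symm⟩
      exact ih β hβ L K hL hK h2 h1 hne.symm hLβ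

end proofs

/-- If the residual rank of a t.d.l.c.s.c. group `G` is well-defined, then the residual order is a
partial order on `𝒦(G)`. -/
theorem result (G : Type u) [Group G] [TopologicalSpace G] [IsTopologicalGroup G] [T2Space G]
    [TotallyDisconnectedSpace G] [LocallyCompactSpace G] [SecondCountableTopology G]
    (hG : RankWellDefined G) :
    (∀ K ∈ CG G, ResLE K K) ∧
    (∀ K ∈ CG G, ∀ L ∈ CG G, ResLE K L → ResLE L K → K = L) ∧
    (∀ K ∈ CG G, ∀ L ∈ CG G, ∀ M ∈ CG G, ResLE K L → ResLE L M → ResLE K M) := by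
  refine ⟨fun K _ => Or.inr rfl, ?_, fun K _ L _ M _ => resLE_trans⟩
  intro K hK L hL h1 h2
  rcases h1 with h1 | h1
  · rcases h2 with h2 | h2
    · by_contra hne
      obtain ⟨α, -, hα⟩ := hG K hK
      exact no_pair α K L hK hL h1 h2 hne hα
    · exact h2.symm
  · exact h1

end Pool.Agent.Results.MP_4e651d_al.NoSuchGroup
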